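import Pool.Agent.Helper45.PQ.StA

set_option autoImplicit false

open Module Classical
open scoped LinearAlgebra.Projectivization

namespace Pool.Agent.Helper24.PQ

open Pool.Agent.Helper45.PQ
open Pool.Agent.Helper53.PB (tt line HasParams Form Setup Polar Nb Kind class_gen)

universe u v

theorem hQDP : StQDP.{u, v} := by
  intro F _ _ h2 V _ _ _ Q nd d r hp
  have hTS : ∀ U : Submodule F V, (∀ x ∈ U, Q x = 0) →
      (Form.orthogonal Q nd).toPolar.TS U := by
    intro U hU
    refine ⟨fun x hx => hU x hx, fun x hx y hy => ?_⟩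
    change QuadraticMap.polar Q x y = 0
    exact polar_zero hU hx hy
  have hext : ∀ U : Submodule F V, (∀ x ∈ U, Q x = 0) →
      ∃ G : Submodule F V, U ≤ G ∧ (∀ x ∈ G, Q x = 0) ∧ finrank F G = r := by
    intro U hU
    obtain ⟨W, hW, hle⟩ := Polar.exists_gen_ge (hTS U hU)
    exact ⟨W, hle, fun x hx => hW.1.1 x hx, class_gen hp W hW⟩
  refine ⟨hp.1, ?_, hext, ?_⟩
  · intro x hx
    have h3 : 2 * Q x = 0 := by rw [← polar_self_two, hx x]
    have h4 : Q x = 0 := (mul_eq_zero.1 h3).resolve_left h2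
    exact nd x h4 hx
  · intro U hU
    obtain ⟨G, hle, _, hG⟩ := hext U hU
    rw [← hG]
    exact Submodule.finrank_mono hle

end Pool.Agent.Helper24.PQ
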